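import Pool.Agent.H639R3.LP.Rel2

set_option autoImplicit false

/-!
# The counting theorem with a bounded order condition on the leading coefficient
-/

namespace Pool.Agent.H639R3.LP

open Filter Topology Finset Complex Pool.Agent.H332R2.Lit Polynomial Pool.Agent.H238R3.UL

/-- the distance to the nearest integer -/
noncomputable def dz (x : ℝ) : ℝ := |x - round x|

/-- all far multiples by `q k` stay away from some shift -/
def Bad (q : ℕ → ℤ) (ε x : ℝ) : Prop := ∃ γ : ℝ, ∀ᶠ k in atTop, ε ≤ dz (q k * x - γ)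

theorem core (d : ℕ) (A : ℕ) (ε δ : ℝ) (hε : 0 < ε) (hδ : 0 < δ) :
    ∃ N₀ b : ℕ, 0 < b ∧ ∀ (α : ℝ) (q p a : ℕ → ℤ), CF α q p a → (∀ᶠ k in atTop, a k ≤ A) →
      ∀ P : ℝ[X], P.natDegree ≤ d+1 →
      (¬ ∃ V W : ℤ, (b : ℝ) * P.coeff (d+1) = V * α + W) →
      ∀ N ≥ N₀, ∀ S : Finset ℕ, S ⊆ range N →
      (∀ l ∈ S, Bad q ε (P.eval (l:ℝ))) →
      (S.card : ℝ) ≤ δ * N := by
  classical
  obtain ⟨R0, hR0⟩ := exists_nat_ge (1 / (4 * ε ^ 2))
  obtain ⟨R, hRR, hR1⟩ : ∃ R : ℕ, 1 / (4 * ε ^ 2) ≤ R ∧ 1 ≤ R := ⟨R0 + 1, by push_cast; linarith,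
    by omega⟩
  obtain ⟨n, hn⟩ := exists_nat_ge (2 * R * (R + 1) ^ 4 / δ + 1)
  obtain ⟨M, hM1, hcount⟩ := countP d ε δ hε hδ R hRR n hn
  obtain ⟨η, b, hη, hb, hwin⟩ := window A n (M*R) (Nat.mul_pos hM1 hR1) (1/(2*((A:ℝ)+3)))
    (by positivity)
  obtain ⟨N₀, hN₀⟩ := hcount η hη
  refine ⟨N₀, b, hb, fun α q p a hcf haA P hP hno N hN S hS hl => ?_⟩
  set β := P.coeff (d+1) with hβ
  obtain ⟨hq0, hq1, hqk, ha1, hqr, hpr, hsgn, hdet⟩ := id hcf
  obtain ⟨KA, hKA⟩ := eventually_atTop.1 haA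
  -- far windows with well separated points
  have hfar : ∀ K, ∃ s : Finset ℕ, s.card = n ∧ (∀ i ∈ s, K ≤ i) ∧
      ∀ i ∈ s, ∀ j ∈ s, i ≠ j → ∀ h ∈ Finset.Icc 1 (M*R),
        η ≤ ‖h • (((q i * β : ℝ) : UnitAddCircle) - ((q j * β : ℝ) : UnitAddCircle))‖ := by
    intro K0
    obtain ⟨K, hK1, hK2⟩ : ∃ K, K0 ≤ K ∧ KA ≤ K := ⟨max K0 KA, le_max_left _ _, le_max_right _ _⟩
    by_contra hcon
    apply hno
    have hrec : ∀ k, ((q (k+2) * β : ℝ) : UnitAddCircle)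
        = a k • ((q (k+1) * β : ℝ) : UnitAddCircle) + ((q k * β : ℝ) : UnitAddCircle) := by
      intro k
      rw [← AddCircle.coe_zsmul, ← AddCircle.coe_add, hqr, zsmul_eq_mul]
      congr 1
      push_cast; ring
    have hw := hwin (fun k => a (K+k)) (fun k => ((q (K+k) * β : ℝ) : UnitAddCircle))
      (fun k => ⟨ha1 _, hKA _ (by omega)⟩) (fun k => hrec (K+k)) (by
        rintro ⟨s, hs1, hs2⟩
        apply hcon
        refine ⟨s.map ⟨fun i => K + i, add_right_injective K⟩, by rw [Finset.card_map, hs1], ?_, ?_⟩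
        · intro i hi
          obtain ⟨j, hj, rfl⟩ := Finset.mem_map.1 hi
          simp only [Function.Embedding.coeFn_mk]
          omega
        · intro i hi j hj hij h hh
          obtain ⟨i', hi', rfl⟩ := Finset.mem_map.1 hi
          obtain ⟨j', hj', rfl⟩ := Finset.mem_map.1 hj
          simp only [Function.Embedding.coeFn_mk] at hij ⊢
          exact hs2 i' hi' j' hj' (fun hc => hij (by rw [hc])) h hh)
    refine relation_exact hcf A haA b ?_
    filter_upwards [eventually_ge_atTop (K + n*n)] with k hk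
    obtain ⟨m, rfl⟩ := Nat.exists_eq_add_of_le hk
    have := hw (n*n+m) (by omega)
    rwa [show K + (n*n+m) = K + n*n + m by omega] at this
  -- thresholds for the members of `S`
  have hthr : ∀ l ∈ S, ∃ K : ℕ, ∃ γ : ℝ, ∀ k, K ≤ k →
      ε ≤ |(q k * P.eval (l:ℝ) - γ) - round (q k * P.eval (l:ℝ) - γ)| := by
    intro l hlS
    obtain ⟨γ, hγ⟩ := hl l hlS
    obtain ⟨K, hK⟩ := eventually_atTop.1 hγ
    exact ⟨K, γ, hK⟩
  choose! Kf γf hKf using hthr
  obtain ⟨s, hs1, hs2, hs3⟩ := hfar (∑ l ∈ S, Kf l)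
  have hKle : ∀ l ∈ S, ∀ i ∈ s, Kf l ≤ i := fun l hlS i hi =>
    (Finset.single_le_sum (fun _ _ => Nat.zero_le _) hlS).trans (hs2 i hi)
  let g : Fin n → ℕ := fun i => s.orderEmbOfFin hs1 i
  have hg : ∀ i, g i ∈ s := fun i => s.orderEmbOfFin_mem hs1 i
  have hginj : ∀ i j, i ≠ j → g i ≠ g j := fun i j hij hc =>
    hij ((s.orderEmbOfFin hs1).injective hc)
  refine hN₀ (fun i => C (q (g i) : ℝ) * P) (fun i => (natDegree_C_mul_le _ _).trans hP) ?_
    N hN S hS ?_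
  · intro i j hij h hh
    have h1 := hs3 (g i) (hg i) (g j) (hg j) (hginj i j hij) h hh
    rw [← AddCircle.coe_sub, ← AddCircle.coe_nsmul, nsmul_eq_mul, UnitAddCircle.norm_eq] at h1
    simp only [coeff_C_mul]
    exact h1
  · intro l hlS
    refine ⟨γf l, fun i => ?_⟩
    have h1 := hKf l hlS (g i) (hKle l hlS (g i) (hg i))
    simp only [eval_mul, eval_C]
    exact h1

end Pool.Agent.H639R3.LP
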