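import Pool.Agent.H639R3.LP.Core

set_option autoImplicit false

/-!
# Induction on the degree: all nonconstant coefficients count
-/

namespace Pool.Agent.H639R3.LP

open Filter Topology Finset Complex Pool.Agent.H332R2.Lit Polynomial Pool.Agent.H238R3.UL

/-- the group `ℤ + ℤα` -/
def Lat (α : ℝ) : AddSubgroup ℝ where
  carrier := {x | ∃ V W : ℤ, x = V * α + W}
  zero_mem' := ⟨0, 0, by simp⟩
  add_mem' := by
    rintro x y ⟨V, W, rfl⟩ ⟨V', W', rfl⟩
    exact ⟨V + V', W + W', by push_cast; ring⟩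
  neg_mem' := by
    rintro x ⟨V, W, rfl⟩
    exact ⟨-V, -W, by push_cast; ring⟩

lemma mem_Lat {α x : ℝ} : x ∈ Lat α ↔ ∃ V W : ℤ, x = V * α + W := Iff.rfl

lemma Lat_int_mul {α x : ℝ} (h : x ∈ Lat α) (n : ℤ) : (n : ℝ) * x ∈ Lat α := by
  have := (Lat α).zsmul_mem h n
  rwa [zsmul_eq_mul] at this

lemma dz_shift (y z : ℝ) (n : ℤ) : dz (y + z + n) ≤ dz y + |z| := by
  unfold dz
  have h1 : |y + z + n - round (y + z + n)| ≤ |y + z + n - (round y + n : ℤ)| := round_le' _ _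
  refine h1.trans ?_
  have : y + z + n - (round y + n : ℤ) = (y - round y) + z := by push_cast; ring
  rw [this]
  exact abs_add_le _ _

lemma bad_shift {α : ℝ} {q p a : ℕ → ℤ} (hcf : CF α q p a) {ε : ℝ} (hε : 0 < ε) {x y : ℝ}
    (hy : y ∈ Lat α) (h : Bad q ε (x + y)) : Bad q (ε / 2) x := by
  obtain ⟨V, W, rfl⟩ := hy
  obtain ⟨γ, hγ⟩ := h
  refine ⟨γ, ?_⟩
  have hsm := hcf.small (μ := ε / 2 / (|(V:ℝ)| + 1)) (by positivity)
  filter_upwards [hγ, hsm] with k h1 h2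
  have e : (q k : ℝ) * (x + (V * α + W)) - γ
      = (q k * x - γ) + V * (q k * α - p k) + ((V * p k + q k * W : ℤ) : ℝ) := by
    push_cast; ring
  rw [e] at h1
  have h3 := h1.trans (dz_shift _ _ _)
  rw [abs_mul] at h3
  rw [lt_div_iff₀ (by positivity)] at h2
  have h4 : |(V:ℝ)| * |(q k : ℝ) * α - p k| ≤ ε / 2 := by
    nlinarith [abs_nonneg (V:ℝ), abs_nonneg ((q k : ℝ) * α - p k)]
  linarith

/-- the polynomial obtained on a residue class after removing the top coefficient -/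
noncomputable def Qs (D : ℕ) (P : ℝ[X]) (b s : ℕ) : ℝ[X] :=
  (P - C (P.coeff (D+1)) * X ^ (D+1)).comp (C (b:ℝ) * X + C (s:ℝ))
    + C (P.coeff (D+1) * (s:ℝ) ^ (D+1))

lemma R_degree (D : ℕ) (P : ℝ[X]) (hP : P.natDegree ≤ D + 1) :
    (P - C (P.coeff (D+1)) * X ^ (D+1)).natDegree ≤ D := by
  rw [natDegree_le_iff_coeff_eq_zero]
  intro N hN
  rw [coeff_sub, coeff_C_mul, coeff_X_pow]
  rcases Nat.lt_or_ge (D+1) N with h | h
  · rw [coeff_eq_zero_of_natDegree_lt (by omega), if_neg (by omega)]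
    simp
  · have : N = D + 1 := by omega
    subst this
    simp

lemma Qs_degree (D : ℕ) (P : ℝ[X]) (hP : P.natDegree ≤ D + 1) (b s : ℕ) :
    (Qs D P b s).natDegree ≤ D := by
  unfold Qs
  refine (natDegree_add_le _ _).trans (max_le ?_ ((natDegree_C _).le.trans (Nat.zero_le _)))
  refine natDegree_comp_le.trans ?_
  have h1 : (C (b:ℝ) * X + C (s:ℝ)).natDegree ≤ 1 := natDegree_linear_le
  calc _ ≤ D * 1 := Nat.mul_le_mul (R_degree D P hP) h1
    _ = D := mul_one D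

lemma Qs_eval (D : ℕ) (P : ℝ[X]) (b s m : ℕ) {α : ℝ} (h : (b:ℝ) * P.coeff (D+1) ∈ Lat α) :
    ∃ y ∈ Lat α, P.eval ((b * m + s : ℕ) : ℝ) = (Qs D P b s).eval (m:ℝ) + y := by
  obtain ⟨t, ht⟩ : (((b * m + s : ℕ) : ℤ) - s) ∣ ((b * m + s : ℕ) : ℤ) ^ (D+1) - (s:ℤ) ^ (D+1) :=
    sub_dvd_pow_sub_pow _ _ _
  refine ⟨((m * t : ℤ) : ℝ) * (b * P.coeff (D+1)), Lat_int_mul h _, ?_⟩
  have ht' : ((b * m + s : ℕ) : ℝ) ^ (D+1) - (s:ℝ) ^ (D+1) = (b * m) * t := by
    have : ((((b * m + s : ℕ) : ℤ) ^ (D+1) - (s:ℤ) ^ (D+1) : ℤ) : ℝ)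
        = (((((b * m + s : ℕ) : ℤ) - s) * t : ℤ) : ℝ) := by rw [ht]
    push_cast at this ⊢
    rw [this]; ring
  unfold Qs
  simp only [eval_add, eval_comp, eval_sub, eval_mul, eval_C, eval_pow, eval_X]
  have e : (b:ℝ) * (m:ℝ) + s = ((b * m + s : ℕ) : ℝ) := by push_cast; ring
  rw [e]
  push_cast at ht' ⊢
  linear_combination (P.coeff (D+1)) * ht'

lemma Qs_coeff (D : ℕ) (P : ℝ[X]) (hP : P.natDegree ≤ D + 1) (b s b₁ : ℕ) (hb : 0 < b) {α : ℝ}
    (h0 : (b:ℝ) * P.coeff (D+1) ∈ Lat α)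
    (h : ∀ j, 1 ≤ j → (b₁:ℝ) * (Qs D P b s).coeff j ∈ Lat α) :
    ∀ j, 1 ≤ j → ((b₁ * b ^ (D+1) : ℕ) : ℝ) * P.coeff j ∈ Lat α := by
  intro j hj
  have hb0 : (b:ℝ) ≠ 0 := by positivity
  rcases Nat.lt_or_ge (D+1) j with h1 | h1
  · rw [coeff_eq_zero_of_natDegree_lt (by omega), mul_zero]
    exact (Lat α).zero_mem
  rcases Nat.lt_or_ge D j with h2 | h2
  · have : j = D + 1 := by omega
    subst this
    have := Lat_int_mul h0 ((b₁ * b ^ D : ℕ) : ℤ)
    convert this using 1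
    push_cast; ring
  set R : ℝ[X] := P - C (P.coeff (D+1)) * X ^ (D+1) with hR
  set Q : ℝ[X] := R.comp (C (b:ℝ) * X + C (s:ℝ)) with hQ
  have hRd : R.natDegree ≤ D := R_degree D P hP
  have hQd : Q.natDegree ≤ D := by
    refine natDegree_comp_le.trans ?_
    have h1 : (C (b:ℝ) * X + C (s:ℝ)).natDegree ≤ 1 := natDegree_linear_le
    calc _ ≤ D * 1 := Nat.mul_le_mul hRd h1
      _ = D := mul_one D
  have hRQ : R = Q.comp (C ((b:ℝ)⁻¹) * (X - C (s:ℝ))) := by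
    rw [hQ, comp_assoc]
    have : (C (b:ℝ) * X + C (s:ℝ)).comp (C ((b:ℝ)⁻¹) * (X - C (s:ℝ))) = X := by
      simp only [add_comp, mul_comp, C_comp, X_comp]
      rw [← mul_assoc, ← C_mul, mul_inv_cancel₀ hb0, C_1, one_mul, sub_add_cancel]
    rw [this, comp_X]
  have hPj : P.coeff j = R.coeff j := by
    rw [hR, coeff_sub, coeff_C_mul, coeff_X_pow, if_neg (by omega)]
    simp
  have hsum : R.coeff j = ∑ i ∈ range (D+1), Q.coeff i * (((b:ℝ)⁻¹) ^ i *
      ((X - C (s:ℝ)) ^ i).coeff j) := by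
    conv_lhs => rw [hRQ]
    rw [comp, eval₂_eq_sum_range' _ (n := D+1) (by omega), finsetSum_coeff]
    refine Finset.sum_congr rfl fun i _ => ?_
    rw [coeff_C_mul, mul_pow, ← C_pow, coeff_C_mul]
  rw [hPj, hsum, Finset.mul_sum]
  refine (Lat α).sum_mem fun i hi => ?_
  rw [Finset.mem_range] at hi
  rcases Nat.eq_zero_or_pos i with h3 | h3
  · subst h3
    have : ((X - C (s:ℝ)) ^ 0).coeff j = 0 := by
      rw [pow_zero, coeff_one, if_neg (by omega)]
    rw [this, mul_zero, mul_zero, mul_zero]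
    exact (Lat α).zero_mem
  have h4 := h i h3
  have h5 : (Qs D P b s).coeff i = Q.coeff i := by
    unfold Qs
    rw [coeff_add, coeff_C_of_ne_zero (by omega), add_zero]
  rw [h5] at h4
  have h6 := Lat_int_mul h4 ((b:ℤ) ^ (D + 1 - i) * ((-(s:ℤ)) ^ (i - j) * (i.choose j : ℤ)))
  convert h6 using 1
  rw [sub_eq_add_neg, ← C_neg, coeff_X_add_C_pow]
  push_cast
  have h7 : (b:ℝ) ^ (D+1) = (b:ℝ) ^ (D+1-i) * (b:ℝ) ^ i := by
    rw [← pow_add]; congr 1; omega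
  rw [h7]
  have h8 : (b:ℝ) ^ i * ((b:ℝ)⁻¹) ^ i = 1 := by rw [← mul_pow, mul_inv_cancel₀ hb0, one_pow]
  linear_combination ((b₁:ℝ) * (b:ℝ) ^ (D+1-i) * Q.coeff i * ((-(s:ℝ)) ^ (i-j) * (i.choose j : ℝ))) * h8

theorem gen (A : ℕ) (D : ℕ) : ∀ (ε δ : ℝ), 0 < ε → 0 < δ →
    ∃ N₀ b : ℕ, 0 < b ∧ ∀ (α : ℝ) (q p a : ℕ → ℤ), CF α q p a → (∀ᶠ k in atTop, a k ≤ A) →
      ∀ P : ℝ[X], P.natDegree ≤ D →
      (∃ j, 1 ≤ j ∧ (b : ℝ) * P.coeff j ∉ Lat α) →
      ∀ N ≥ N₀, ∀ S : Finset ℕ, S ⊆ range N →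
      (∀ l ∈ S, Bad q ε (P.eval (l:ℝ))) →
      (S.card : ℝ) ≤ δ * N := by
  classical
  induction D with
  | zero =>
    intro ε δ hε hδ
    refine ⟨0, 1, one_pos, fun α q p a _ _ P hP hj => ?_⟩
    obtain ⟨j, h1, h2⟩ := hj
    exfalso
    apply h2
    rw [coeff_eq_zero_of_natDegree_lt (by omega), mul_zero]
    exact (Lat α).zero_mem
  | succ D ih =>
    intro ε δ hε hδ
    obtain ⟨N₁, b₁, hb₁, h₁⟩ := ih (ε/2) (δ/2) (by positivity) (by positivity)
    obtain ⟨N₂, b₂, hb₂, h₂⟩ := core D A ε δ hε hδ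
    refine ⟨N₂ + b₂ * (N₁ + 1), b₁ * b₂ ^ (D+1), by positivity, ?_⟩
    intro α q p a hcf haA P hP hj N hN S hS hl
    by_cases h0 : (b₂:ℝ) * P.coeff (D+1) ∈ Lat α
    swap
    · exact h₂ α q p a hcf haA P hP (fun hc => h0 hc) N (by omega) S hS hl
    set N' : ℕ := N / b₂ + 1 with hN'
    let T : ℕ → Finset ℕ := fun s => (range N').filter (fun m => b₂ * m + s ∈ S)
    have hT : ∀ s, ((T s).card : ℝ) ≤ δ / 2 * N' := by
      intro s
      refine h₁ α q p a hcf haA (Qs D P b₂ s) (Qs_degree D P hP b₂ s) ?_ N' ?_ (T s)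
        (Finset.filter_subset _ _) ?_
      · by_contra hcon
        push Not at hcon
        obtain ⟨j, hj1, hj2⟩ := hj
        exact hj2 (Qs_coeff D P hP b₂ s b₁ hb₂ h0 hcon j hj1)
      · have : N₁ ≤ N / b₂ := by
          rw [Nat.le_div_iff_mul_le hb₂]
          nlinarith
        omega
      · intro m hm
        have hm2 := (Finset.mem_filter.1 hm).2
        obtain ⟨y, hy, he⟩ := Qs_eval D P b₂ s m h0
        have := hl _ hm2
        rw [he] at this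
        exact bad_shift hcf hε hy this
    have hcover : S ⊆ (range b₂).biUnion (fun s => (T s).image (fun m => b₂ * m + s)) := by
      intro l hlS
      rw [Finset.mem_biUnion]
      refine ⟨l % b₂, Finset.mem_range.2 (Nat.mod_lt _ hb₂), ?_⟩
      rw [Finset.mem_image]
      refine ⟨l / b₂, ?_, Nat.div_add_mod _ _⟩
      rw [Finset.mem_filter, Finset.mem_range]
      have hlN := Finset.mem_range.1 (hS hlS)
      refine ⟨?_, by rw [Nat.div_add_mod]; exact hlS⟩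
      have : l / b₂ ≤ N / b₂ := Nat.div_le_div_right hlN.le
      omega
    have hcard : S.card ≤ ∑ s ∈ range b₂, (T s).card :=
      (Finset.card_le_card hcover).trans (Finset.card_biUnion_le.trans
        (Finset.sum_le_sum fun s _ => Finset.card_image_le))
    have hcard' : (S.card : ℝ) ≤ ∑ s ∈ range b₂, ((T s).card : ℝ) := by exact_mod_cast hcard
    have hsum : ∑ s ∈ range b₂, ((T s).card : ℝ) ≤ b₂ * (δ / 2 * N') := by
      calc _ ≤ ∑ _s ∈ range b₂, (δ / 2 * N' : ℝ) := Finset.sum_le_sum fun s _ => hT s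
        _ = _ := by rw [Finset.sum_const, Finset.card_range, nsmul_eq_mul]
    have hN2 : (b₂:ℝ) * N' ≤ 2 * N := by
      have e1 : b₂ * N' ≤ N + b₂ := by
        rw [hN', mul_add, mul_one]
        have := Nat.mul_div_le N b₂
        omega
      have e2 : b₂ ≤ N := by nlinarith
      have e3 : b₂ * N' ≤ 2 * N := by omega
      exact_mod_cast e3
    calc (S.card : ℝ) ≤ b₂ * (δ / 2 * N') := hcard'.trans hsum
      _ = δ / 2 * (b₂ * N') := by ring
      _ ≤ δ / 2 * (2 * N) := by gcongr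
      _ = δ * N := by ring

/-- The main theorem. -/
theorem main (D : ℕ) (ε δ : ℝ) (hε : 0 < ε) (hδ : 0 < δ) :
    ∃ N₀ b : ℕ, 0 < b ∧ ∀ (α : ℝ) (P : ℝ[X]), P.natDegree ≤ D →
      (∃ j, 1 ≤ j ∧ ∀ V W : ℤ, (b : ℝ) * P.coeff j ≠ V * α + W) →
      ∀ N ≥ N₀, ∀ S : Finset ℕ, S ⊆ range N →
      (∀ l ∈ S, ¬ ∀ γ : ℝ, ∃ᶠ q : ℕ in atTop, (q : ℝ) * |q * α - round (q * α)|
        * |(q * P.eval (l:ℝ) - γ) - round (q * P.eval (l:ℝ) - γ)| < ε) →
      (S.card : ℝ) ≤ δ * N := by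
  classical
  obtain ⟨A, hA⟩ := exists_nat_ge (1 / ε)
  obtain ⟨N₀, b, hb, hmain⟩ := gen A D ε δ hε hδ
  refine ⟨N₀, b, hb, fun α P hP hj N hN S hS hl => ?_⟩
  by_cases hbad : ∀ᶠ q : ℕ in atTop, ε ≤ (q : ℝ) * |q * α - round (q * α)|
  swap
  · have hemp : S = ∅ := by
      rw [Finset.eq_empty_iff_forall_notMem]
      intro l hlS
      apply hl l hlS
      intro γ
      rw [not_eventually] at hbad
      refine hbad.mono fun q hq => ?_
      push Not at hq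
      have h2 : |(q * P.eval (l:ℝ) - γ) - round (q * P.eval (l:ℝ) - γ)| ≤ 1 :=
        (abs_sub_round _).trans (by norm_num)
      have h3 : 0 ≤ (q : ℝ) * |q * α - round (q * α)| := by positivity
      calc _ ≤ (q : ℝ) * |q * α - round (q * α)| * 1 := mul_le_mul_of_nonneg_left h2 h3
        _ < ε := by simpa using hq
    rw [hemp]
    simp only [Finset.card_empty, Nat.cast_zero]
    positivity
  have hα := irrational_of_bad hε hbad
  obtain ⟨q, p, a, hq0, hq1, hqk, ha1, hqr, hpr, hsgn, hdet, ha⟩ := cf_data hα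
  have hcf : CF α q p a := ⟨hq0, hq1, hqk, ha1, hqr, hpr, hsgn, hdet⟩
  have hqtend : Tendsto (fun k : ℕ => (q k).toNat) atTop atTop := by
    apply tendsto_atTop_mono (f := fun k : ℕ => k - 1)
    · intro k
      have h1 := hqk k
      omega
    · exact tendsto_sub_atTop_nat 1
  have hqn : ∀ k, (((q k).toNat : ℕ) : ℝ) = q k := by
    intro k
    have := Int.toNat_of_nonneg (hq0 k)
    exact_mod_cast this
  have hD1 : ∀ k, (q (k + 1) : ℝ) * |q k * α - p k| ≤ 1 := by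
    intro k
    have h1 := hdet k
    have h3 : 0 ≤ (q k : ℝ) * |q (k + 1) * α - p (k + 1)| :=
      mul_nonneg (by exact_mod_cast hq0 k) (abs_nonneg _)
    linarith
  have haA : ∀ᶠ k in atTop, a k ≤ A := by
    have h1 := hqtend.eventually hbad
    have h2 := (tendsto_add_atTop_nat 1).eventually h1
    filter_upwards [h2] with k hk
    rw [hqn] at hk
    have h3 : |(q (k + 1) : ℝ) * α - round ((q (k + 1) : ℝ) * α)|
        ≤ |(q (k + 1) : ℝ) * α - p (k + 1)| := round_le' _ _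
    have hqpos : (0 : ℝ) ≤ q (k + 1) := by exact_mod_cast hq0 (k + 1)
    have h4 : ε ≤ (q (k + 1) : ℝ) * |(q (k + 1) : ℝ) * α - p (k + 1)| :=
      hk.trans (mul_le_mul_of_nonneg_left h3 hqpos)
    have h5 := ha k
    have h6 := hD1 k
    have h7 : (a k : ℝ) * ε ≤ 1 := by
      have ha0 : (0 : ℝ) ≤ a k := by
        have := ha1 k
        exact_mod_cast (by omega : (0 : ℤ) ≤ a k)
      calc (a k : ℝ) * ε ≤ a k * ((q (k + 1) : ℝ) * |(q (k + 1) : ℝ) * α - p (k + 1)|) :=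
            mul_le_mul_of_nonneg_left h4 ha0
        _ = q (k + 1) * (a k * |(q (k + 1) : ℝ) * α - p (k + 1)|) := by ring
        _ ≤ q (k + 1) * |q k * α - p k| := mul_le_mul_of_nonneg_left h5 hqpos
        _ ≤ 1 := h6
    have h8 : (a k : ℝ) ≤ A := by
      refine le_trans ?_ hA
      rw [le_div_iff₀ hε]; exact h7
    exact_mod_cast h8
  refine hmain α q p a hcf haA P hP ?_ N hN S hS ?_
  · obtain ⟨j, hj1, hj2⟩ := hj
    refine ⟨j, hj1, ?_⟩
    rintro ⟨V, W, h⟩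
    exact hj2 V W h
  · intro l hlS
    have h1 := hl l hlS
    push Not at h1
    obtain ⟨γ, hγ⟩ := h1
    have h2 := hqtend.eventually hγ
    refine ⟨γ, ?_⟩
    filter_upwards [h2, eventually_ge_atTop 1] with k h3 hk1
    rw [hqn] at h3
    obtain ⟨m, rfl⟩ := Nat.exists_eq_add_of_le' hk1
    have hqpos : (0 : ℝ) ≤ q (m + 1) := by exact_mod_cast hq0 _
    have hqq : (q (m + 1) : ℝ) ≤ q (m + 1 + 1) := by
      have g1 := hqr m
      have g2 := ha1 m
      have g3 := hq0 (m+1)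
      have g4 := hq0 m
      have : q (m+1) ≤ q (m+2) := by nlinarith
      exact_mod_cast this
    have h4 : (q (m + 1) : ℝ) * |(q (m + 1) : ℝ) * α - round ((q (m + 1) : ℝ) * α)| ≤ 1 := by
      calc _ ≤ (q (m + 1) : ℝ) * |(q (m + 1) : ℝ) * α - p (m + 1)| :=
            mul_le_mul_of_nonneg_left (round_le' _ _) hqpos
        _ ≤ (q (m + 1 + 1) : ℝ) * |(q (m + 1) : ℝ) * α - p (m + 1)| :=
            mul_le_mul_of_nonneg_right hqq (abs_nonneg _)
        _ ≤ 1 := hD1 _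
    have h5 := abs_nonneg ((q (m + 1) * P.eval (l:ℝ) - γ)
      - round (q (m + 1) * P.eval (l:ℝ) - γ))
    calc ε ≤ _ := h3
      _ ≤ 1 * |(q (m + 1) * P.eval (l:ℝ) - γ) - round (q (m + 1) * P.eval (l:ℝ) - γ)| :=
          mul_le_mul_of_nonneg_right h4 h5
      _ = _ := one_mul _

end Pool.Agent.H639R3.LP
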