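import Pool.Agent.H238R3.UL.MainP

set_option autoImplicit false

/-!
# Small multiples of all `q_k β` force an exact relation
-/

namespace Pool.Agent.H639R3.LP

open Filter Topology Pool.Agent.H332R2.Lit

/-- the data of a continued fraction expansion -/
structure CF (α : ℝ) (q p a : ℕ → ℤ) : Prop where
  hq0 : ∀ k, 0 ≤ q k
  hq1 : ∀ k, 1 ≤ q (k + 1)
  hqk : ∀ k : ℕ, (k : ℤ) ≤ q k + 1
  ha1 : ∀ k, 1 ≤ a k
  hqr : ∀ k, q (k + 2) = a k * q (k + 1) + q k
  hpr : ∀ k, p (k + 2) = a k * p (k + 1) + p k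
  hsgn : ∀ k, (q k * α - p k) * (q (k + 1) * α - p (k + 1)) < 0
  hdet : ∀ k, (q (k + 1) : ℝ) * |q k * α - p k| + q k * |q (k + 1) * α - p (k + 1)| = 1

variable {α : ℝ} {q p a : ℕ → ℤ}

lemma CF.small (h : CF α q p a) {μ : ℝ} (hμ : 0 < μ) :
    ∀ᶠ k in atTop, |(q k : ℝ) * α - p k| < μ := by
  have hD1 : ∀ k, (q (k + 1) : ℝ) * |(q k : ℝ) * α - p k| ≤ 1 := by
    intro k
    have h1 := h.hdet k
    have h3 : 0 ≤ (q k : ℝ) * |q (k + 1) * α - p (k + 1)| :=
      mul_nonneg (by exact_mod_cast h.hq0 k) (abs_nonneg _)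
    linarith
  obtain ⟨M, hM⟩ := exists_nat_gt (1/μ)
  filter_upwards [eventually_ge_atTop M] with k hk
  have h1 := hD1 k
  have h2 : (M:ℝ) ≤ q (k+1) := by
    have h := h.hqk (k+1)
    push_cast at h
    have : (M:ℤ) ≤ q (k+1) := by
      have : (M:ℤ) ≤ k := by exact_mod_cast hk
      linarith
    exact_mod_cast this
  have h3 : 1/μ < q (k+1) := hM.trans_le h2
  rw [div_lt_iff₀ hμ] at h3
  by_contra hcon
  push Not at hcon
  have h4 : (0:ℝ) < q (k+1) := by
    by_contra h5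
    push Not at h5
    nlinarith
  nlinarith

theorem relation_exact (h : CF α q p a) {β : ℝ}
    (A : ℕ) (haA : ∀ᶠ k in atTop, a k ≤ A) (b : ℕ)
    (hsm : ∀ᶠ k in atTop, ‖b • (((q k * β : ℝ)) : UnitAddCircle)‖ ≤ 1/(2*(A+3))) :
    ∃ V W : ℤ, (b : ℝ) * β = V * α + W := by
  classical
  obtain ⟨hq0, hq1, hqk, ha1, hqr, hpr, hsgn, hdet⟩ := h
  have hcf : CF α q p a := ⟨hq0, hq1, hqk, ha1, hqr, hpr, hsgn, hdet⟩
  set D : ℕ → ℝ := fun k => q k * α - p k with hD
  set θ : ℕ → UnitAddCircle := fun k => ((q k * (b * β) : ℝ) : UnitAddCircle) with hθ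
  have hθb : ∀ k, θ k = b • (((q k * β : ℝ)) : UnitAddCircle) := by
    intro k
    simp only [hθ]
    rw [← AddCircle.coe_nsmul, nsmul_eq_mul]
    congr 1; ring
  have hlift : ∀ k, ∃ r : ℝ, (r : UnitAddCircle) = θ k ∧ |r| = ‖θ k‖ := fun k => lift_small _
  choose r hr1 hr2 using hlift
  have hA0 : (0:ℝ) < 2*((A:ℝ)+3) := by positivity
  have hrs : ∀ᶠ k in atTop, |r k| ≤ 1/(2*(A+3)) := by
    filter_upwards [hsm] with k hk
    rw [hr2, hθb]; exact hk
  have hθr : ∀ k, θ (k + 2) - a k • θ (k + 1) - θ k = 0 := by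
    intro k
    simp only [hθ]
    rw [← AddCircle.coe_zsmul, ← AddCircle.coe_sub, ← AddCircle.coe_sub]
    rw [hqr]
    have : (((a k * q (k + 1) + q k : ℤ) : ℝ) * (b * β) - a k • ((q (k + 1) : ℝ) * (b * β))
        - q k * (b * β)) = 0 := by
      rw [zsmul_eq_mul]; push_cast; ring
    rw [this]; rfl
  have hrec : ∀ᶠ k in atTop, r (k + 2) = a k * r (k + 1) + r k := by
    have h2 := (tendsto_add_atTop_nat 1).eventually hrs
    have h3 := (tendsto_add_atTop_nat 2).eventually hrs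
    filter_upwards [hrs, h2, h3, haA] with k e0 e1 e2 hak
    have hakr : (a k : ℝ) ≤ A := by exact_mod_cast hak
    have hakr0 : (0 : ℝ) ≤ a k := by
      have := ha1 k
      exact_mod_cast (by omega : (0:ℤ) ≤ a k)
    have hsum : |r (k + 2) - a k * r (k + 1) - r k| < 1 := by
      have t1 : |r (k + 2) - a k * r (k + 1) - r k| ≤ |r (k + 2)| + a k * |r (k + 1)| + |r k| := by
        calc _ ≤ |r (k + 2) - a k * r (k + 1)| + |r k| := abs_sub _ _
          _ ≤ |r (k + 2)| + |a k * r (k + 1)| + |r k| := by gcongr; exact abs_sub _ _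
          _ = _ := by rw [abs_mul, abs_of_nonneg hakr0]
      have t2 : (a k : ℝ) * |r (k + 1)| ≤ A * (1/(2*(A+3))) :=
        mul_le_mul hakr e1 (abs_nonneg _) (by positivity)
      have t3 : (A:ℝ) * (1/(2*(A+3))) + 2 * (1/(2*(A+3))) < 1 := by
        rw [← add_mul, mul_one_div, div_lt_one hA0]
        have : (0:ℝ) ≤ A := Nat.cast_nonneg _
        linarith
      linarith
    have hcoe : ((r (k + 2) - a k * r (k + 1) - r k : ℝ) : UnitAddCircle) = 0 := by
      rw [AddCircle.coe_sub, AddCircle.coe_sub]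
      have : (((a k : ℝ) * r (k + 1) : ℝ) : UnitAddCircle)
          = a k • ((r (k + 1) : ℝ) : UnitAddCircle) := by
        rw [← AddCircle.coe_zsmul, zsmul_eq_mul]
      rw [this, hr1, hr1, hr1]
      exact hθr k
    have h7 := zero_of_coe_zero hcoe hsum
    linarith
  obtain ⟨K, hK⟩ := eventually_atTop.1 hrec
  have hDr : ∀ k, D (k + 2) = a k * D (k + 1) + D k := by
    intro k
    simp only [hD]
    rw [hqr, hpr]; push_cast; ring
  have hDne : ∀ k, D k ≠ 0 := by
    intro k hk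
    have := hsgn k
    simp only [hD] at hk
    rw [hk, zero_mul] at this
    exact lt_irrefl _ this
  have hDlim : ∀ μ : ℝ, 0 < μ → ∀ᶠ k in atTop, |D k| < μ := fun μ hμ => hcf.small hμ
  have hW : ∀ m, |r (K + m + 1) * D (K + m) - r (K + m) * D (K + m + 1)|
      = |r (K + 1) * D K - r K * D (K + 1)| := by
    intro m
    induction m with
    | zero => rfl
    | succ m ih =>
      rw [← ih, ← abs_neg]
      congr 1
      have e1 : r (K + (m + 1) + 1) = a (K + m) * r (K + m + 1) + r (K + m) :=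
        hK (K + m) (by omega)
      have e2 : D (K + (m + 1) + 1) = a (K + m) * D (K + m + 1) + D (K + m) := hDr (K + m)
      rw [e1, e2]
      have e3 : K + (m + 1) = K + m + 1 := by omega
      rw [e3]; ring
  have hrs1 : ∀ᶠ k in atTop, |r k| ≤ 1 := by
    filter_upwards [hrs] with k hk
    refine hk.trans ?_
    rw [div_le_one hA0]
    have : (0:ℝ) ≤ A := Nat.cast_nonneg _
    linarith
  have hW0 : |r (K + 1) * D K - r K * D (K + 1)| = 0 := by
    apply le_antisymm _ (abs_nonneg _)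
    apply le_of_forall_pos_lt_add
    intro η hη
    rw [zero_add]
    have h1 := hDlim (η / 2) (by linarith)
    have h2 := (tendsto_add_atTop_nat 1).eventually h1
    have h3 := (tendsto_add_atTop_nat 1).eventually hrs1
    obtain ⟨k, hk, hk1, hk3, hk4, hk2⟩ :=
      (h1.and (h2.and (hrs1.and (h3.and (eventually_ge_atTop K))))).exists
    obtain ⟨m, rfl⟩ := Nat.exists_eq_add_of_le hk2
    rw [← hW m]
    calc |r (K + m + 1) * D (K + m) - r (K + m) * D (K + m + 1)|
        ≤ |r (K + m + 1) * D (K + m)| + |r (K + m) * D (K + m + 1)| := abs_sub _ _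
      _ ≤ |D (K + m)| + |D (K + m + 1)| := by
          rw [abs_mul, abs_mul]
          have := mul_le_mul_of_nonneg_right hk4 (abs_nonneg (D (K + m)))
          have := mul_le_mul_of_nonneg_right hk3 (abs_nonneg (D (K + m + 1)))
          linarith
      _ < η := by linarith
  set B : ℝ := r K / D K with hB
  have e0 : r K = B * D K := by rw [hB]; field_simp [hDne K]
  have e1 : r (K + 1) = B * D (K + 1) := by
    have h2 := abs_eq_zero.1 hW0
    rw [e0] at h2
    have h3 : (r (K + 1) - B * D (K + 1)) * D K = 0 := by linarith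
    rcases mul_eq_zero.1 h3 with h | h
    · linarith
    · exact absurd h (hDne _)
  -- integrality
  have hint : ∀ k, ∃ n : ℤ, (q k : ℝ) * (b * β) - r k = n := by
    intro k
    apply int_of_coe_zero
    rw [AddCircle.coe_sub, hr1, sub_eq_zero]
  obtain ⟨I0, hI0⟩ := hint K
  obtain ⟨I1, hI1⟩ := hint (K + 1)
  rw [e0] at hI0
  rw [e1] at hI1
  simp only [hD] at hI0 hI1
  -- determinant
  have hdetZ : (q (K + 1) : ℝ) * (q K * α - p K) - q K * (q (K + 1) * α - p (K + 1)) = 1 ∨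
      (q (K + 1) : ℝ) * (q K * α - p K) - q K * (q (K + 1) * α - p (K + 1)) = -1 := by
    have h1 := hdet K
    have h2 := hsgn K
    rcases mul_neg_iff.1 h2 with ⟨h3, h4⟩ | ⟨h3, h4⟩
    · left
      rw [abs_of_pos h3, abs_of_neg h4] at h1
      linarith
    · right
      rw [abs_of_neg h3, abs_of_pos h4] at h1
      linarith
  set x0 : ℝ := (q K : ℝ)
  set x1 : ℝ := (q (K + 1) : ℝ)
  set y0 : ℝ := (p K : ℝ)
  set y1 : ℝ := (p (K + 1) : ℝ)
  rcases hdetZ with hd | hd
  · refine ⟨q K * I1 - q (K + 1) * I0, I0 * p (K + 1) - I1 * p K, ?_⟩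
    push_cast
    change (b : ℝ) * β = (x0 * I1 - x1 * I0) * α + (I0 * y1 - I1 * y0)
    rw [← hI0, ← hI1]
    have hd' : x0 * y1 - x1 * y0 = 1 := by linarith
    linear_combination (-(b * β) : ℝ) * hd'
  · refine ⟨-(q K * I1 - q (K + 1) * I0), -(I0 * p (K + 1) - I1 * p K), ?_⟩
    push_cast
    change (b : ℝ) * β = -(x0 * I1 - x1 * I0) * α + -(I0 * y1 - I1 * y0)
    rw [← hI0, ← hI1]
    have hd' : x0 * y1 - x1 * y0 = -1 := by linarith
    linear_combination ((b * β) : ℝ) * hd'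

end Pool.Agent.H639R3.LP
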