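import Mathlib
import Pool.Agent.H639R3.LP.Ind

set_option autoImplicit false

/-! # MP_0ea415_nt: the exceptional set in the Littlewood conjecture, torsion cosets and resonant
polynomial progressions

For `ε > 0` and a real number `α` let `V_ε(α)` be the set of all real `β` for which (for some shift
`γ`) only finitely many `q` satisfy `q ‖qα‖ ‖qβ - γ‖ < ε`; if a pair `(α, β)` violates the Littlewood
conjecture, then `β` lies in `V_ε(α)` for some `ε > 0`. We show that for given `d, ε, δ` there are
`N₀` and `b` with the following properties.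

1. For all real `α, β` and all `M ≥ N₀` at most `δ M ^ 2` of the `M ^ 2` translates of `(α, β)` by the
`M`-torsion points of the torus are exceptional for `ε`; more precisely, for every `α` and every `β`
at most `δ M` of the `M` numbers `β + c / M` are in `V_ε(α)`.

2. For every `α` and every real polynomial `P` of degree at most `d` one of whose nonconstant
coefficients is not in `(1/b) (ℤ + ℤ α)`, and for all `N ≥ N₀`, at most `δ N` of the numbers
`P(0), …, P(N-1)` are in `V_ε(α)`. In particular the common difference of every arithmetic progression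
of length `N₀` in `V_ε(α)` is in `(1/b) (ℤ + ℤ α)`. -/

open Filter Polynomial

namespace Pool.Agent.H639R3.LP.Torsion

/-- `q ‖qα‖ ‖qβ - γ‖ < ε` for infinitely many `q` -/
def Good (ε α β γ : ℝ) : Prop :=
  ∃ᶠ q : ℕ in atTop, (q : ℝ) * |q * α - round (q * α)| * |(q * β - γ) - round (q * β - γ)| < ε

open Classical in
theorem torsionCosets (d : ℕ) (ε δ : ℝ) (hε : 0 < ε) (hδ : 0 < δ) :
    ∃ N₀ b : ℕ, 0 < b ∧
      (∀ (α β : ℝ) (M : ℕ), N₀ ≤ M →
        (((Finset.range M).filter
          (fun c : ℕ => ¬ ∀ γ : ℝ, Good ε α (β + c / M) γ)).card : ℝ) ≤ δ * M ∧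
        (((Finset.range M ×ˢ Finset.range M).filter
          (fun s : ℕ × ℕ => ¬ ∀ γ : ℝ, Good ε (α + s.1 / M) (β + s.2 / M) γ)).card : ℝ)
            ≤ δ * (M : ℝ) ^ 2) ∧
      ∀ (α : ℝ) (P : ℝ[X]), P.natDegree ≤ d →
        (∃ j, 1 ≤ j ∧ ∀ V W : ℤ, (b : ℝ) * P.coeff j ≠ V * α + W) → ∀ N ≥ N₀,
        (((Finset.range N).filter
          (fun l : ℕ => ¬ ∀ γ : ℝ, Good ε α (P.eval (l : ℝ)) γ)).card : ℝ) ≤ δ * N := by
  obtain ⟨N₁, b₁, hb₁, h₁⟩ := Pool.Agent.H639R3.LP.main 1 ε δ hε hδ
  obtain ⟨N₂, b₂, hb₂, h₂⟩ := Pool.Agent.H639R3.LP.main d ε δ hε hδ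
  have key : ∀ (α β : ℝ) (M : ℕ), N₁ + b₁ + 1 ≤ M → (((Finset.range M).filter
      (fun c : ℕ => ¬ ∀ γ : ℝ, Good ε α (β + c / M) γ)).card : ℝ) ≤ δ * M := by
    intro α β M hM
    have hMpos : (0 : ℝ) < M := by
      have : 0 < M := by omega
      exact_mod_cast this
    by_cases hbad : ∀ᶠ q : ℕ in atTop, ε ≤ (q : ℝ) * |q * α - round (q * α)|
    · have hirr := Pool.Agent.H332R2.Lit.irrational_of_bad hε hbad
      set P : ℝ[X] := C ((M : ℝ)⁻¹) * X + C β with hP
      have hev : ∀ c : ℕ, P.eval (c : ℝ) = β + c / M := by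
        intro c
        simp only [hP, eval_add, eval_mul, eval_C, eval_X]
        field_simp
        ring
      refine h₁ α P natDegree_linear_le ⟨1, le_rfl, ?_⟩ M (by omega) _ (Finset.filter_subset _ _) ?_
      · intro V W h
        have hc : P.coeff 1 = (M : ℝ)⁻¹ := by simp [hP]
        rw [hc] at h
        by_cases hV : V = 0
        · rw [hV] at h
          simp only [Int.cast_zero, zero_mul, zero_add] at h
          have h3 : (b₁ : ℝ) = W * M := by
            rw [← h]; field_simp
          have h4 : (b₁ : ℤ) = W * M := by exact_mod_cast h3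
          have h5 : (b₁ : ℤ) < M := by exact_mod_cast (by omega : b₁ < M)
          have h6 : (0 : ℤ) < b₁ := by exact_mod_cast hb₁
          have h7 : 0 < W := by
            by_contra hcon
            push Not at hcon
            have : W * (M : ℤ) ≤ 0 := mul_nonpos_of_nonpos_of_nonneg hcon (by positivity)
            omega
          nlinarith
        · have hVr : (V : ℝ) ≠ 0 := by exact_mod_cast hV
          apply hirr
          refine ⟨((b₁ : ℚ) * (M : ℚ)⁻¹ - W) / V, ?_⟩
          push_cast
          rw [h]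
          field_simp
          ring
      · intro l hl hcon
        have h3 := (Finset.mem_filter.1 hl).2
        apply h3
        intro γ
        have := hcon γ
        rw [hev] at this
        exact this
    · have hemp : (Finset.range M).filter
          (fun c : ℕ => ¬ ∀ γ : ℝ, Good ε α (β + c / M) γ) = ∅ := by
        rw [Finset.filter_eq_empty_iff]
        intro c _ hcon
        apply hcon
        intro γ
        rw [not_eventually] at hbad
        refine hbad.mono fun q hq => ?_
        push Not at hq
        have h2 : |(q * (β + c / M) - γ) - round (q * (β + c / M) - γ)| ≤ 1 :=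
          (abs_sub_round _).trans (by norm_num)
        have h3 : 0 ≤ (q : ℝ) * |q * α - round (q * α)| := by positivity
        calc _ ≤ (q : ℝ) * |q * α - round (q * α)| * 1 := mul_le_mul_of_nonneg_left h2 h3
          _ < ε := by simpa using hq
      rw [hemp]
      simp only [Finset.card_empty, Nat.cast_zero]
      positivity
  refine ⟨N₁ + b₁ + 1 + N₂, b₂, hb₂, ?_, ?_⟩
  · intro α β M hM
    refine ⟨key α β M (by omega), ?_⟩
    set S := (Finset.range M ×ˢ Finset.range M).filter
      (fun s : ℕ × ℕ => ¬ ∀ γ : ℝ, Good ε (α + s.1 / M) (β + s.2 / M) γ) with hS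
    have hcover : S ⊆ (Finset.range M).biUnion (fun c => ((Finset.range M).filter
        (fun e : ℕ => ¬ ∀ γ : ℝ, Good ε (α + c / M) (β + e / M) γ)).image (fun e => (c, e))) := by
      intro s hs
      obtain ⟨h1, h2⟩ := Finset.mem_filter.1 hs
      obtain ⟨h3, h4⟩ := Finset.mem_product.1 h1
      rw [Finset.mem_biUnion]
      refine ⟨s.1, h3, ?_⟩
      rw [Finset.mem_image]
      exact ⟨s.2, Finset.mem_filter.2 ⟨h4, h2⟩, rfl⟩
    have hcard : S.card ≤ ∑ c ∈ Finset.range M, ((Finset.range M).filter
        (fun e : ℕ => ¬ ∀ γ : ℝ, Good ε (α + c / M) (β + e / M) γ)).card :=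
      (Finset.card_le_card hcover).trans (Finset.card_biUnion_le.trans
        (Finset.sum_le_sum fun s _ => Finset.card_image_le))
    calc (S.card : ℝ) ≤ ∑ c ∈ Finset.range M, (((Finset.range M).filter
        (fun e : ℕ => ¬ ∀ γ : ℝ, Good ε (α + c / M) (β + e / M) γ)).card : ℝ) := by
          exact_mod_cast hcard
      _ ≤ ∑ _c ∈ Finset.range M, δ * (M : ℝ) :=
          Finset.sum_le_sum fun c _ => key _ β M (by omega)
      _ = δ * (M : ℝ) ^ 2 := by
          rw [Finset.sum_const, Finset.card_range, nsmul_eq_mul]; ring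
  · intro α P hP hj N hN
    refine h₂ α P hP hj N (by omega) _ (Finset.filter_subset _ _) ?_
    intro l hl hcon
    exact (Finset.mem_filter.1 hl).2 hcon

end Pool.Agent.H639R3.LP.Torsion
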